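import Pool.Agent.W662.CB.Stmts2

set_option autoImplicit false

open scoped InnerProductSpace

namespace Pool.Agent.W417.CB2

open Pool.Agent.W662.CB

section
variable {K : Type} [NormedAddCommGroup K] [InnerProductSpace ℂ K] [CompleteSpace K]

theorem inner_star (T : K →L[ℂ] K) (u v : K) : ⟪T u, v⟫_ℂ = ⟪u, (star T) v⟫_ℂ := by
  rw [ContinuousLinearMap.star_eq_adjoint, ContinuousLinearMap.adjoint_inner_right]

theorem norm_iso {T : K →L[ℂ] K} (h : star T * T = 1) (v : K) : ‖T v‖ = ‖v‖ := by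
  have h1 : ⟪T v, T v⟫_ℂ = ⟪v, v⟫_ℂ := by
    rw [inner_star]
    have : (star T) (T v) = (star T * T) v := rfl
    rw [this, h]; rfl
  have h2 : ‖T v‖ ^ 2 = ‖v‖ ^ 2 := by
    rw [inner_self_eq_norm_sq_to_K, inner_self_eq_norm_sq_to_K] at h1
    exact_mod_cast h1
  exact (sq_eq_sq₀ (norm_nonneg _) (norm_nonneg _)).1 h2

omit [CompleteSpace K] in
theorem norm_orth (m : ℕ) (v : ℕ → K) (h : ∀ i j : ℕ, i < m → j < m → i ≠ j → ⟪v i, v j⟫_ℂ = 0) :
    ∑ j ∈ Finset.range m, ‖v j‖ ^ 2 = ‖∑ j ∈ Finset.range m, v j‖ ^ 2 := by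
  have h1 : ⟪∑ j ∈ Finset.range m, v j, ∑ j ∈ Finset.range m, v j⟫_ℂ
      = ∑ j ∈ Finset.range m, ⟪v j, v j⟫_ℂ := by
    rw [sum_inner]
    apply Finset.sum_congr rfl
    intro i hi
    rw [inner_sum]
    apply Finset.sum_eq_single_of_mem i hi
    intro j hj hji
    exact h i j (Finset.mem_range.1 hi) (Finset.mem_range.1 hj) (Ne.symm hji)
  rw [inner_self_eq_norm_sq_to_K] at h1
  simp_rw [inner_self_eq_norm_sq_to_K] at h1
  exact_mod_cast h1.symm

theorem rel_sub {A B : VonNeumannAlgebra K} {S T : K →L[ℂ] K} (hS : Rel A B S) (hT : Rel A B T) :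
    Rel A B (S - T) := by
  refine ⟨sub_mem hS.1 hT.1, fun Y hY => ?_⟩
  rw [mul_sub, sub_mul, hS.2 Y hY, hT.2 Y hY]

end

/-- counting: good indices -/
theorem pick (m : ℕ) (hm : 0 < m) (Bd : Finset ℕ) (hB : 4 * Bd.card < m) :
    ∃ i j : ℕ, i + j < m ∧ j < m ∧ i < m ∧ j ∉ Bd ∧ i ∉ Bd ∧ i + j ∉ Bd := by
  classical
  obtain ⟨j, hj1, hj2⟩ : ∃ j ∈ Finset.range (m / 4 + 1), j ∉ Bd := by
    by_contra hcon
    push Not at hcon
    have : (Finset.range (m / 4 + 1)).card ≤ Bd.card := Finset.card_le_card hcon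
    rw [Finset.card_range] at this
    omega
  rw [Finset.mem_range] at hj1
  obtain ⟨i, hi1, hi2⟩ : ∃ i ∈ Finset.range (m - j), i ∉ Bd ∪ Bd.image (fun t => t - j) := by
    by_contra hcon
    push Not at hcon
    have h1 : (Finset.range (m - j)).card ≤ (Bd ∪ Bd.image (fun t => t - j)).card :=
      Finset.card_le_card hcon
    have h2 := Finset.card_union_le Bd (Bd.image (fun t => t - j))
    have h3 : (Bd.image (fun t => t - j)).card ≤ Bd.card := Finset.card_image_le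
    rw [Finset.card_range] at h1
    omega
  rw [Finset.mem_range] at hi1
  rw [Finset.mem_union, not_or] at hi2
  refine ⟨i, j, by omega, by omega, by omega, hj2, hi2.1, fun hc => hi2.2 ?_⟩
  exact Finset.mem_image.2 ⟨i + j, hc, by omega⟩

theorem q5 : S_Q5 := by
  classical
  intro K _ _ _ A B hAB p p' hpA hpp hps hp'A hp'p hp's ζ ζ' m Θ c hG hpζ hUT X S S' ρ ρ'
    hX hp'X hS hS' hρ hρ'
  have hm := hG.pos
  have hnorm : ∀ (j : ℕ) (v : K), ‖Θ j v‖ = ‖v‖ := fun j v => norm_iso (hG.un1 j) v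
  have hnz : 0 < ‖ζ‖ := by have := hG.n1; linarith
  have hnz' : 0 < ‖ζ'‖ := by have := hG.n1'; linarith
  have hcpos : ∀ j : ℕ, j < m → 0 < c j := by
    intro j hj
    have h1 := hG.c_ge j hj
    have h2 := Real.sqrt_nonneg (m : ℝ)
    by_contra hcon
    push Not at hcon
    nlinarith
  -- commutation
  have hXs : ∀ j : ℕ, star (Θ j) * X = X * star (Θ j) := by
    intro j
    calc star (Θ j) * X = star (Θ j) * X * (Θ j * star (Θ j)) := by rw [hG.un2 j, mul_one]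
      _ = star (Θ j) * (X * Θ j) * star (Θ j) := by simp only [mul_assoc]
      _ = star (Θ j) * (Θ j * X) * star (Θ j) := by rw [hX j]
      _ = (star (Θ j) * Θ j) * X * star (Θ j) := by simp only [mul_assoc]
      _ = X * star (Θ j) := by rw [hG.un1 j, one_mul]
  set Q : ℕ → K →L[ℂ] K := fun j => Θ j * p' * star (Θ j) with hQ
  have hQX : ∀ j : ℕ, Q j * X = X * Q j := by
    intro j
    calc Θ j * p' * star (Θ j) * X = Θ j * p' * (star (Θ j) * X) := by rw [mul_assoc]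
      _ = Θ j * p' * (X * star (Θ j)) := by rw [hXs j]
      _ = Θ j * (p' * X) * star (Θ j) := by simp only [mul_assoc]
      _ = Θ j * (X * p') * star (Θ j) := by rw [hp'X]
      _ = (Θ j * X) * p' * star (Θ j) := by simp only [mul_assoc]
      _ = (X * Θ j) * p' * star (Θ j) := by rw [hX j]
      _ = X * (Θ j * p' * star (Θ j)) := by simp only [mul_assoc]
  have hQS : ∀ j : ℕ, Q j * S = S * Q j := fun j => hS.2 _ (hG.q_mem j)
  have hQQ : ∀ j : ℕ, Q j * Q j = Q j := by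
    intro j
    calc Θ j * p' * star (Θ j) * (Θ j * p' * star (Θ j))
        = Θ j * p' * (star (Θ j) * Θ j) * p' * star (Θ j) := by simp only [mul_assoc]
      _ = Θ j * (p' * p') * star (Θ j) := by rw [hG.un1 j, mul_one]; simp only [mul_assoc]
      _ = Θ j * p' * star (Θ j) := by rw [hp'p]
  have hQs : ∀ j : ℕ, star (Q j) = Q j := by
    intro j
    simp only [hQ, star_mul, star_star, hp's, mul_assoc]
  have hQζ : ∀ j : ℕ, j < m → Q j ζ = ((c j : ℝ) : ℂ) • Θ j ζ' := fun j hj => hG.q_ζ j hj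
  -- orthogonal decomposition
  have hdec : (S - X) ζ = ∑ j ∈ Finset.range m, Q j ((S - X) ζ) := by
    have h1 : ∀ j : ℕ, Q j ((S - X) ζ) = (S - X) (Q j ζ) := by
      intro j
      have : Q j * (S - X) = (S - X) * Q j := by rw [mul_sub, sub_mul, hQS j, hQX j]
      exact DFunLike.congr_fun this ζ
    rw [Finset.sum_congr rfl (fun j _ => h1 j), ← map_sum]
    congr 1
    exact hG.sum
  have horth : ∑ j ∈ Finset.range m, ‖Q j ((S - X) ζ)‖ ^ 2 = ‖(S - X) ζ‖ ^ 2 := by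
    rw [norm_orth m (fun j => Q j ((S - X) ζ)) ?_]
    · rw [← hdec]
    · intro i j hi hj hij
      show ⟪Q i ((S - X) ζ), Q j ((S - X) ζ)⟫_ℂ = 0
      rw [inner_star, hQs i]
      have h0 : (Q i) (Q j ((S - X) ζ)) = (Q i * Q j) ((S - X) ζ) := rfl
      have h2 : Q i * Q j = 0 := hG.q_orth i j hi hj hij
      rw [h0, h2]; simp
  have hρ0 : 0 ≤ ρ := le_trans (norm_nonneg _) hρ
  have hρ0' : 0 ≤ ρ' := le_trans (norm_nonneg _) hρ'
  have hsumle : ∑ j ∈ Finset.range m, ‖Q j ((S - X) ζ)‖ ^ 2 ≤ ρ ^ 2 := by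
    rw [horth]; exact pow_le_pow_left₀ (norm_nonneg _) hρ 2
  -- bad indices
  set Bd : Finset ℕ := (Finset.range m).filter
    (fun j => 4 * ρ ^ 2 < m * ‖Q j ((S - X) ζ)‖ ^ 2) with hBd
  have hBcard : 4 * Bd.card < m := by
    rcases Finset.eq_empty_or_nonempty Bd with h0 | hne
    · rw [h0]; simpa using hm
    · have h1 : ∑ j ∈ Bd, (4 * ρ ^ 2) < ∑ j ∈ Bd, (m * ‖Q j ((S - X) ζ)‖ ^ 2) :=
        Finset.sum_lt_sum_of_nonempty hne (fun j hj => (Finset.mem_filter.1 hj).2)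
      have h2 : ∑ j ∈ Bd, ((m : ℝ) * ‖Q j ((S - X) ζ)‖ ^ 2)
          ≤ ∑ j ∈ Finset.range m, ((m : ℝ) * ‖Q j ((S - X) ζ)‖ ^ 2) :=
        Finset.sum_le_sum_of_subset_of_nonneg (Finset.filter_subset _ _)
          (fun j _ _ => by positivity)
      rw [← Finset.mul_sum (Finset.range m)] at h2
      rw [Finset.sum_const, nsmul_eq_mul] at h1
      have h3 : (m : ℝ) * ∑ j ∈ Finset.range m, ‖Q j ((S - X) ζ)‖ ^ 2 ≤ m * ρ ^ 2 :=
        mul_le_mul_of_nonneg_left hsumle (by positivity)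
      have h4 : (Bd.card : ℝ) * (4 * ρ ^ 2) < m * ρ ^ 2 := by linarith
      have h5 : (4 * (Bd.card : ℝ)) * ρ ^ 2 < m * ρ ^ 2 := by linarith
      have h6 : 4 * (Bd.card : ℝ) < m := lt_of_mul_lt_mul_right h5 (by positivity)
      exact_mod_cast h6
  obtain ⟨i, j, hijm, hjm, him, hjB, hiB, hijB⟩ := pick m hm Bd hBcard
  -- conjugates
  set V : ℕ → K →L[ℂ] K := fun k => Θ k * S' * star (Θ k) with hV
  have hVrel : ∀ k : ℕ, Rel A B (V k) := fun k => hG.mem k S' hS'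
  have hVΘ : ∀ k : ℕ, V k * Θ k = Θ k * S' := by
    intro k
    calc Θ k * S' * star (Θ k) * Θ k = Θ k * S' * (star (Θ k) * Θ k) := by rw [mul_assoc]
      _ = Θ k * S' := by rw [hG.un1 k, mul_one]
  -- (3)
  have hUT2 : ∀ (Y : K →L[ℂ] K) (k : ℕ), Rel A B Y → k < m →
      ‖Y (Θ k ζ')‖ * ‖ζ‖ = ‖Y ζ‖ * ‖ζ'‖ := by
    intro Y k hY hk
    have h1 := hUT Y hY (Q k) (hG.q_mem k) (hQQ k) (hQs k) (hG.q_le k hk)
    rw [hQζ k hk, map_smul, norm_smul, norm_smul, hnorm] at h1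
    have h2 : ‖((c k : ℝ) : ℂ)‖ = c k := by
      rw [Complex.norm_real, Real.norm_of_nonneg (hcpos k hk).le]
    rw [h2] at h1
    have h3 := hcpos k hk
    have h4 : c k * (‖Y (Θ k ζ')‖ * ‖ζ‖) = c k * (‖Y ζ‖ * ‖ζ'‖) := by linarith
    exact mul_left_cancel₀ h3.ne' h4
  have hUT3 : ∀ (Y : K →L[ℂ] K) (k : ℕ), Rel A B Y → k < m → ‖Y ζ‖ ≤ 4 * ‖Y (Θ k ζ')‖ := by
    intro Y k hY hk
    have h1 := hUT2 Y k hY hk
    have h2 := hG.n1'
    have h3 := hG.n2
    have h4 := norm_nonneg (Y (Θ k ζ'))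
    have h5 := norm_nonneg (Y ζ)
    nlinarith
  -- good indices
  have hgood : ∀ k : ℕ, k < m → k ∉ Bd → ‖(S - V k) ζ‖ ≤ 4 * (4 * ρ + ρ') := by
    intro k hk hkB
    have h1 : (m : ℝ) * ‖Q k ((S - X) ζ)‖ ^ 2 ≤ 4 * ρ ^ 2 := by
      by_contra hcon
      push Not at hcon
      exact hkB (Finset.mem_filter.2 ⟨Finset.mem_range.2 hk, hcon⟩)
    have h2 : Q k ((S - X) ζ) = ((c k : ℝ) : ℂ) • (S - X) (Θ k ζ') := by
      have : Q k * (S - X) = (S - X) * Q k := by rw [mul_sub, sub_mul, hQS k, hQX k]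
      have h3 : Q k ((S - X) ζ) = (S - X) (Q k ζ) := DFunLike.congr_fun this ζ
      rw [h3, hQζ k hk, map_smul]
    have h3 : ‖Q k ((S - X) ζ)‖ = c k * ‖(S - X) (Θ k ζ')‖ := by
      rw [h2, norm_smul, Complex.norm_real, Real.norm_of_nonneg (hcpos k hk).le]
    have h4 : Real.sqrt m * ‖Q k ((S - X) ζ)‖ ≤ 2 * ρ := by
      apply (sq_le_sq₀ (by positivity) (by positivity)).1
      rw [mul_pow, Real.sq_sqrt (by positivity)]
      linarith
    have h5 : ‖(S - X) (Θ k ζ')‖ ≤ 4 * ρ := by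
      have h6 := hG.c_ge k hk
      have h7 := norm_nonneg ((S - X) (Θ k ζ'))
      have h8 : ‖(S - X) (Θ k ζ')‖ * 1 ≤ ‖(S - X) (Θ k ζ')‖ * (2 * Real.sqrt m * c k) :=
        mul_le_mul_of_nonneg_left h6 h7
      rw [h3] at h4
      nlinarith
    have h6 : (V k - X) (Θ k ζ') = Θ k ((S' - X) ζ') := by
      have : (V k - X) * Θ k = Θ k * (S' - X) := by rw [sub_mul, mul_sub, hVΘ k, hX k]
      exact DFunLike.congr_fun this ζ'
    have h7 : ‖(V k - X) (Θ k ζ')‖ ≤ ρ' := by rw [h6, hnorm]; exact hρ'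
    have h8 : ‖(S - V k) (Θ k ζ')‖ ≤ 4 * ρ + ρ' := by
      have h9 : (S - V k) (Θ k ζ') = (S - X) (Θ k ζ') - (V k - X) (Θ k ζ') := by
        simp only [sub_apply]; abel
      rw [h9]
      exact le_trans (norm_sub_le _ _) (by linarith)
    have h9 := hUT3 (S - V k) k (rel_sub hS (hVrel k)) hk
    linarith
  -- (4)
  have h4 : ‖(V j - S') ζ‖ = ‖(V (i + j) - V i) ζ‖ := by
    have e1 : (V (i + j) - V i) (Θ i ζ') = Θ i ((V j - S') ζ') := by
      have : (V (i + j) - V i) * Θ i = Θ i * (V j - S') := by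
        rw [sub_mul, mul_sub, hVΘ i]
        congr 1
        show Θ (i + j) * S' * star (Θ (i + j)) * Θ i = Θ i * (Θ j * S' * star (Θ j))
        rw [hG.add i j, star_mul]
        calc Θ i * Θ j * S' * (star (Θ j) * star (Θ i)) * Θ i
            = Θ i * Θ j * S' * star (Θ j) * (star (Θ i) * Θ i) := by simp only [mul_assoc]
          _ = Θ i * (Θ j * S' * star (Θ j)) := by rw [hG.un1 i, mul_one]; simp only [mul_assoc]
      exact DFunLike.congr_fun this ζ'
    have e2 := hUT2 (V (i + j) - V i) i (rel_sub (hVrel _) (hVrel _)) him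
    rw [e1, hnorm] at e2
    have e3 := hUT2 (V j - S') 0 (rel_sub (hVrel _) hS') hm
    rw [hG.zero] at e3
    have e4 : (1 : K →L[ℂ] K) ζ' = ζ' := rfl
    rw [e4] at e3
    have e5 : ‖(V j - S') ζ‖ * ‖ζ'‖ = ‖(V (i + j) - V i) ζ‖ * ‖ζ'‖ := by rw [← e3, ← e2]
    exact mul_right_cancel₀ hnz'.ne' e5
  have g1 := hgood j hjm hjB
  have g2 := hgood i him hiB
  have g3 := hgood (i + j) hijm hijB
  have g4 : ‖(V (i + j) - V i) ζ‖ ≤ 8 * (4 * ρ + ρ') := by
    have e : (V (i + j) - V i) ζ = (S - V i) ζ - (S - V (i + j)) ζ := by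
      simp only [sub_apply]; abel
    rw [e]
    exact le_trans (norm_sub_le _ _) (by linarith)
  have e : (S - S') ζ = (S - V j) ζ + (V j - S') ζ := by
    simp only [sub_apply]; abel
  rw [e]
  refine le_trans (norm_add_le _ _) ?_
  rw [h4]
  linarith

end Pool.Agent.W417.CB2
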